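import Mathlib
import Pool.Agent.PHP.Points
import Pool.Agent.PHP.ClosNum

/-!
# MP_1180db_co: coverings of multiplicity `2 k + C k ^ (15 / 16)` split into `k` coverings

`PHP.TLine` (file `Pool.Agent.PHP.LineDefs`) is a properly embedded line in the plane `ℂ` together
with the two regions into which it divides the plane, `PHP.PHArr` (file `Pool.Agent.PHP.ArrDefs`) is a
pseudohalfplane arrangement; the chosen pseudohalfplane of the curve `i` is `(A.L i).side true`.
-/

namespace Pool.Agent.Results.MP_1180db_co.AsymptoticallyTwoK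

open PHP Set

/-- the pseudohalfplanes containing the point `z` -/
def above {ι : Type} (A : PHArr ι) (z : ℂ) : Set ι := {i | z ∈ (A.L i).side true}

/-- `z` lies on none of the curves -/
def Off {ι : Type} (A : PHArr ι) (z : ℂ) : Prop := ∀ i, z ∉ range (A.L i).γ

/-- the family can be coloured with `k` colours so that every point of `S` lies in a member of
every colour -/
def Splits {ι : Type} (A : PHArr ι) (S : Set ℂ) (k : ℕ) : Prop :=
  ∃ c : ι → Fin k, ∀ z ∈ S, ∀ j : Fin k, ∃ i, c i = j ∧ z ∈ (A.L i).side true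

theorem result : ∃ C : ℝ, 0 < C ∧
    ∀ (ι : Type) [Finite ι] (A : PHArr ι) (S : Set ℂ) (k : ℕ), 1 ≤ k → (∀ z ∈ S, Off A z) →
      (∀ z ∈ S, 2 * (k : ℝ) + C * (k : ℝ) ^ ((15 : ℝ) / 16) ≤ (above A z).ncard) →
      Splits A S k := by
  classical
  refine ⟨768 ^ 15, by positivity, fun ι _ A S k hk hS hcov => ?_⟩
  have := Fintype.ofFinite ι
  rcases S.eq_empty_or_nonempty with rfl | ⟨z0, hz0⟩
  · exact ⟨fun _ => ⟨0, by omega⟩, fun z hz => absurd hz (Set.notMem_empty z)⟩
  have hk' : (1 : ℝ) ≤ k := by exact_mod_cast hk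
  have hk0 : (0 : ℝ) < k := by linarith
  have habv : ∀ z, (A.abv z).card = (above A z).ncard := by
    intro z
    rw [← Set.ncard_coe_finset]
    congr 1
    ext i
    simp [PHArr.abv, above]
  set w : ℝ := (k : ℝ) ^ ((1 : ℝ) / 16) with hw
  have hw1 : 1 ≤ w := Real.one_le_rpow hk' (by norm_num)
  have hw0 : 0 < w := by linarith
  have hw15 : (k : ℝ) ^ ((15 : ℝ) / 16) = w ^ 15 := by
    rw [hw, ← Real.rpow_natCast, ← Real.rpow_mul hk0.le]
    norm_num
  have hw16 : (k : ℝ) = w ^ 16 := by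
    rw [hw, ← Real.rpow_natCast, ← Real.rpow_mul hk0.le]
    norm_num
  rw [hw15] at hcov
  have hw15p : 0 < w ^ 15 := by positivity
  set m : ℕ := ⌈2 * (k : ℝ) + 768 ^ 15 * w ^ 15⌉₊ with hm
  have hm1 : 2 * (k : ℝ) + 768 ^ 15 * w ^ 15 ≤ m := Nat.le_ceil _
  have hkm : 2 * k ≤ m := by
    have : 2 * (k : ℝ) ≤ m := by nlinarith
    exact_mod_cast this
  have hmz : ∀ z ∈ S, m ≤ (above A z).ncard := fun z hz => Nat.ceil_le.2 (hcov z hz)
  have hne : Nonempty ι := by
    by_contra hcon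
    rw [not_nonempty_iff] at hcon
    have h1 := hmz z0 hz0
    rw [show above A z0 = ∅ from Set.eq_empty_of_isEmpty _, Set.ncard_empty] at h1
    omega
  obtain ⟨Sy, F0, l, hT, hC⟩ := A.exists_circ
  obtain ⟨S', F, l', h', hTT, hc⟩ := hC.exists_complete
  obtain ⟨W, hW, -⟩ := h'.exists_sweep hc inferInstance
  -- the cells of the points of `S`
  have hcell : ∀ z ∈ S, W.Cel F (A.abv z) := by
    intro z hz
    have h1 : A.sign z ∈ W.cells F := by
      rw [hW]
      apply hTT
      rw [hT]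
      exact A.sign_mem (hS z hz)
    have h2 : (fun i => decide (i ∈ A.abv z)) = A.sign z := by
      funext i
      rw [Bool.eq_iff_iff, decide_eq_true_iff, A.sign_true]
      simp [PHArr.abv]
    unfold Sweep.Cel
    rw [h2]
    exact h1
  have hsub : ∀ (Z : Finset ι) (κ : ℕ), 1 ≤ κ → ∃ c : ι → Fin κ, ∀ X, W.Cel F X →
      3 * κ ≤ (X ∩ Z).card → ∀ j, ∃ i ∈ X ∩ Z, c i = j := by
    intro Z κ hκ
    obtain ⟨c, hc⟩ := h'.clos_sub Z κ hκ
    refine ⟨c, fun X hX hXZ j => ?_⟩
    obtain ⟨i, hi, h1, h2⟩ := hc (fun i => decide (i ∈ X)) (by rw [← hW]; exact hX) (by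
      have h3 : hit Z (fun i => decide (i ∈ X)) = (X ∩ Z).card := by
        unfold hit
        congr 1
        ext i
        simp [and_comm]
      rw [h3]
      exact hXZ) j
    refine ⟨i, ?_, h1⟩
    rw [Finset.mem_inter]
    exact ⟨by simpa using h2, hi⟩
  -- it suffices to colour the cells
  have hfin : (∃ f : ι → ℕ, ∀ a < k, ∀ X, W.Cel F X → m ≤ X.card → ∃ v ∈ X, f v = a) →
      Splits A S k := by
    rintro ⟨f, hf⟩
    refine ⟨fun v => if h : f v < k then ⟨f v, h⟩ else ⟨0, by omega⟩, fun z hz j => ?_⟩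
    obtain ⟨v, hv, hvj⟩ := hf j.val j.isLt (A.abv z) (hcell z hz) (by
      rw [habv]
      exact hmz z hz)
    refine ⟨v, ?_, ?_⟩
    · simp [hvj]
    · unfold PHArr.abv at hv
      rw [Finset.mem_filter] at hv
      exact hv.2
  apply hfin
  by_cases hO : ∃ O, W.Cel F O ∧ O.card ≤ 2 * m
  · obtain ⟨O, hO, hOm⟩ := hO
    refine W.clos_thm F hsub hO (u := 64 * w) (by linarith) hOm hk ?_ ?_
    · have h1 : (2 + 64 / (64 * w)) * (k : ℝ) = 2 * k + w ^ 15 := by
        rw [hw16]
        field_simp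
      rw [h1]
      have h2 : w ^ 15 ≤ 768 ^ 15 * w ^ 15 := le_mul_of_one_le_left hw15p.le (by norm_num)
      linarith
    · have h1 : (12 * (64 * w)) ^ 15 = 768 ^ 15 * w ^ 15 := by
        rw [← mul_pow]
        ring_nf
      rw [h1]
      have h2 : 0 < (768 : ℝ) ^ 15 * w ^ 15 := by positivity
      linarith
  · push Not at hO
    obtain ⟨c, hc⟩ := hsub Finset.univ k hk
    refine ⟨fun v => (c v).val, fun a ha X hX hXm => ?_⟩
    obtain ⟨v, hv, hcv⟩ := hc X hX (by
      rw [Finset.inter_univ]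
      have := hO X hX
      omega) ⟨a, ha⟩
    rw [Finset.inter_univ] at hv
    exact ⟨v, hv, by simp only [hcv]⟩

end Pool.Agent.Results.MP_1180db_co.AsymptoticallyTwoK
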