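import Mathlib
import Pool.Agent.PHP.Points
import Pool.Agent.PHP.MainE
import Pool.Agent.PHP.CapMain

/-!
# MP_1180db_co: multiple coverings by pseudohalfplanes, one of whose cells is shallow

`PHP.TLine` (file `Pool.Agent.PHP.LineDefs`) is a properly embedded line in the plane `ℂ` together
with the two regions into which it divides the plane, `PHP.PHArr` (file `Pool.Agent.PHP.ArrDefs`) is a
pseudohalfplane arrangement; the chosen pseudohalfplane of the curve `i` is `(A.L i).side true`.
-/

namespace Pool.Agent.Results.MP_1180db_co.ShallowPoint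

open PHP Set

/-- the pseudohalfplanes containing the point `z` -/
def above {ι : Type} (A : PHArr ι) (z : ℂ) : Set ι := {i | z ∈ (A.L i).side true}

/-- `z` lies on none of the curves -/
def Off {ι : Type} (A : PHArr ι) (z : ℂ) : Prop := ∀ i, z ∉ range (A.L i).γ

/-- the family can be coloured with `k` colours so that every point of `S` lies in a member of
every colour -/
def Splits {ι : Type} (A : PHArr ι) (S : Set ℂ) (k : ℕ) : Prop :=
  ∃ c : ι → Fin k, ∀ z ∈ S, ∀ j : Fin k, ∃ i, c i = j ∧ z ∈ (A.L i).side true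

theorem splitTwo : SplitTwo := by
  intro k hk ι _ _ S F l h hc O hO hd T' hT hcov
  exact h.split_two hc hk hO hd T' hT (fun X hX => by
    have := hcov X hX
    omega)

theorem result (ι : Type) [Finite ι] (A : PHArr ι) (S : Set ℂ) (k d : ℕ) (hd : 2 ≤ d) (hdk : d ≤ k)
    (hS : ∀ z ∈ S, Off A z) (hp : d < k → ∃ p, Off A p ∧ (above A p).ncard ≤ d)
    (hcov : ∀ z ∈ S, 2 * k + d ≤ (above A z).ncard + 3) : Splits A S k := by
  classical
  have := Fintype.ofFinite ι
  by_cases hne : Nonempty ι
  · obtain ⟨Sy, F, l, hT, hC⟩ := A.exists_circ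
    have hsub : A.sign '' S ⊆ Sy.T := by
      rintro _ ⟨z, hz, rfl⟩
      rw [hT]
      exact A.sign_mem (hS z hz)
    have key : ∃ c : ι → Fin k, ∀ X ∈ A.sign '' S, ∀ j, ∃ i, c i = j ∧ X i = true := by
      rcases Nat.lt_or_ge d k with hlt | hge
      · obtain ⟨p, hp1, hp2⟩ := hp hlt
        refine mainE_aux splitTwo k (by omega) ι Sy F l hC d hd (A.sign p)
          (by rw [hT]; exact A.sign_mem hp1) (by rw [A.dep_sign]; exact hp2) (A.sign '' S) hsub ?_
        rintro _ ⟨z, hz, rfl⟩
        have := hcov z hz
        rw [A.dep_sign]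
        unfold above at this
        exact this
      · refine hC.split k (by omega) (A.sign '' S) hsub ?_
        rintro _ ⟨z, hz, rfl⟩
        have := hcov z hz
        rw [A.dep_sign]
        unfold above at this
        omega
    obtain ⟨c, hc⟩ := key
    refine ⟨c, fun z hz j => ?_⟩
    obtain ⟨i, hi, hX⟩ := hc _ ⟨z, hz, rfl⟩ j
    exact ⟨i, hi, (A.sign_true z i).1 hX⟩
  · rw [not_nonempty_iff] at hne
    refine ⟨fun i => (hne.false i).elim, fun z hz => ?_⟩
    have := hcov z hz
    rw [show above A z = ∅ from Set.eq_empty_of_isEmpty _, Set.ncard_empty] at this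
    omega

end Pool.Agent.Results.MP_1180db_co.ShallowPoint
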