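import Mathlib
import Pool.Agent.PHP.Points
import Pool.Agent.PHP.CapMain
import Pool.Agent.PHP.Straight
import Pool.Agent.PHP.ThreeFinal

/-!
# MP_1180db_co: three coverings, `m(3) = 5`

`PHP.TLine` (file `Pool.Agent.PHP.LineDefs`) is a properly embedded line in the plane `ℂ` together
with the two regions into which it divides the plane, `PHP.PHArr` (file `Pool.Agent.PHP.ArrDefs`) is a
pseudohalfplane arrangement; the chosen pseudohalfplane of the curve `i` is `(A.L i).side true`.
-/

namespace Pool.Agent.Results.MP_1180db_co.ThreeCoverings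

open PHP Set

/-- the pseudohalfplanes containing the point `z` -/
def above {ι : Type} (A : PHArr ι) (z : ℂ) : Set ι := {i | z ∈ (A.L i).side true}

/-- `z` lies on none of the curves -/
def Off {ι : Type} (A : PHArr ι) (z : ℂ) : Prop := ∀ i, z ∉ range (A.L i).γ

/-- the family can be coloured with `k` colours so that every point of `S` lies in a member of
every colour -/
def Splits {ι : Type} (A : PHArr ι) (S : Set ℂ) (k : ℕ) : Prop :=
  ∃ c : ι → Fin k, ∀ z ∈ S, ∀ j : Fin k, ∃ i, c i = j ∧ z ∈ (A.L i).side true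

/-- every `m`-fold covering of a finite set of points by a finite pseudohalfplane arrangement splits into `k`
coverings -/
def Suffices (k m : ℕ) : Prop :=
  ∀ (ι : Type) [Finite ι] (A : PHArr ι) (S : Set ℂ), S.Finite → (∀ z ∈ S, Off A z) →
    (∀ z ∈ S, m ≤ (above A z).ncard) → Splits A S k

theorem splitTwo : SplitTwo := by
  intro k hk ι _ _ S F l h hc O hO hd T' hT hcov
  exact h.split_two hc hk hO hd T' hT (fun X hX => by
    have := hcov X hX
    omega)


theorem suffices_three (k : ℕ) (hk : 3 ≤ k) : Suffices k (3 * k - 4) := by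
  intro ι _ A S _ hS hcov
  classical
  have := Fintype.ofFinite ι
  by_cases hne : Nonempty ι
  · obtain ⟨Sy, F, l, hT, hC⟩ := A.exists_circ
    have hsub : A.sign '' S ⊆ Sy.T := by
      rintro _ ⟨z, hz, rfl⟩
      rw [hT]
      exact A.sign_mem (hS z hz)
    obtain ⟨c, hc⟩ := threek_aux deepThree splitTwo k hk ι Sy F l hC (A.sign '' S) hsub (by
      rintro _ ⟨z, hz, rfl⟩
      have := hcov z hz
      rw [A.dep_sign]
      unfold above at this
      omega)
    refine ⟨c, fun z hz j => ?_⟩
    obtain ⟨i, hi, hX⟩ := hc _ ⟨z, hz, rfl⟩ j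
    exact ⟨i, hi, (A.sign_true z i).1 hX⟩
  · rw [not_nonempty_iff] at hne
    refine ⟨fun i => (hne.false i).elim, fun z hz => ?_⟩
    have := hcov z hz
    rw [show above A z = ∅ from Set.eq_empty_of_isEmpty _, Set.ncard_empty] at this
    omega

/-- the `2k-1` pseudohalfplanes above the tangents of a parabola -/
theorem lower (k m : ℕ) (hm : m + 1 < 2 * k) :
    ∃ (ι : Type) (_ : Finite ι) (A : PHArr ι) (S : Set ℂ), S.Finite ∧ (∀ z ∈ S, Off A z) ∧
      (∀ z ∈ S, m ≤ (above A z).ncard) ∧ ¬ Splits A S k := by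
  have hcov1 : ∀ i j : Fin (m + 1), pnt i.val ∈ ((tangents m).L j).side true ↔ j ≠ i := by
    intro i j
    show pnt i.val ∈ (tangent (j.val : ℝ)).side true ↔ j ≠ i
    rw [mem_side_true, ht_pnt_pos]
    exact not_congr Fin.ext_iff.symm
  refine ⟨Fin (m + 1), inferInstance, tangents m, range (fun i : Fin (m + 1) => pnt i.val),
    finite_range _, ?_, ?_, ?_⟩
  · rintro _ ⟨i, rfl⟩ j hj
    have h1 : pnt i.val ∈ range (gam (j.val : ℝ)) := hj
    rw [← ht_zero_iff] at h1
    exact ht_pnt_ne i.val j.val h1
  · rintro _ ⟨i, rfl⟩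
    have h1 : above (tangents m) (pnt i.val) = {i}ᶜ := by
      ext j
      exact hcov1 i j
    show m ≤ (above (tangents m) (pnt i.val)).ncard
    rw [h1, Set.ncard_compl, Set.ncard_singleton, Nat.card_eq_fintype_card, Fintype.card_fin]
    omega
  · rintro ⟨c, hc⟩
    -- every colour has two members
    have h2 : ∀ j : Fin k, 2 ≤ (Finset.univ.filter (fun i => c i = j)).card := by
      intro j
      by_contra hlt
      rw [not_le] at hlt
      obtain ⟨i0, hi0⟩ : ∃ i0 : Fin (m + 1), ∀ i, c i = j → i = i0 := by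
        rcases (Finset.univ.filter (fun i => c i = j)).eq_empty_or_nonempty with h4 | ⟨i0, h4⟩
        · refine ⟨0, fun i hi => ?_⟩
          have : i ∈ Finset.univ.filter (fun i => c i = j) := by simp [hi]
          rw [h4] at this
          simp at this
        · refine ⟨i0, fun i hi => ?_⟩
          exact Finset.card_le_one.1 (by omega : (Finset.univ.filter (fun i => c i = j)).card ≤ 1)
            i (by simp [hi]) i0 h4
      obtain ⟨i, hi, hz⟩ := hc (pnt i0.val) ⟨i0, rfl⟩ j
      rw [hcov1] at hz
      exact hz (hi0 i hi)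
    have h3 : ∑ j : Fin k, (Finset.univ.filter (fun i => c i = j)).card = m + 1 := by
      have := Finset.card_eq_sum_card_fiberwise (s := (Finset.univ : Finset (Fin (m + 1))))
        (t := (Finset.univ : Finset (Fin k))) (f := c) (fun _ _ => Finset.mem_coe.2 (Finset.mem_univ _))
      rw [Finset.card_univ, Fintype.card_fin] at this
      exact this.symm
    have h4 := Finset.card_nsmul_le_sum (Finset.univ : Finset (Fin k))
      (fun j => (Finset.univ.filter (fun i => c i = j)).card) 2 (fun j _ => h2 j)
    rw [Finset.card_univ, Fintype.card_fin, smul_eq_mul] at h4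
    omega

theorem result : IsLeast {m : ℕ | Suffices 3 m} 5 ∧ ∀ k, 3 ≤ k → Suffices k (3 * k - 4) := by
  refine ⟨⟨suffices_three 3 le_rfl, fun m hm => ?_⟩, suffices_three⟩
  by_contra hlt
  rw [not_le] at hlt
  obtain ⟨ι, _, A, S, h0, h1, h2, h3⟩ := lower 3 m (by omega)
  exact h3 (hm ι A S h0 h1 h2)

end Pool.Agent.Results.MP_1180db_co.ThreeCoverings
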