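import Mathlib
import Pool.Agent.PHP.Points
import Pool.Agent.PHP.MainW

/-!
# MP_1180db_co: multiple coverings of the whole plane by pseudohalfplanes

`PHP.TLine` (file `Pool.Agent.PHP.LineDefs`) is a properly embedded line in the plane `ℂ` together
with the two regions into which it divides the plane, `PHP.PHArr` (file `Pool.Agent.PHP.ArrDefs`) is a
pseudohalfplane arrangement; the chosen pseudohalfplane of the curve `i` is `(A.L i).side true`.
-/

namespace Pool.Agent.Results.MP_1180db_co.WholePlane

open PHP Set

/-- the pseudohalfplanes containing the point `z` -/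
def above {ι : Type} (A : PHArr ι) (z : ℂ) : Set ι := {i | z ∈ (A.L i).side true}

/-- `z` lies on none of the curves -/
def Off {ι : Type} (A : PHArr ι) (z : ℂ) : Prop := ∀ i, z ∉ range (A.L i).γ

/-- the family can be coloured with `k` colours so that every point of `S` lies in a member of
every colour -/
def Splits {ι : Type} (A : PHArr ι) (S : Set ℂ) (k : ℕ) : Prop :=
  ∃ c : ι → Fin k, ∀ z ∈ S, ∀ j : Fin k, ∃ i, c i = j ∧ z ∈ (A.L i).side true

/-- If every point of the plane off the curves lies in at least `2k-2` pseudohalfplanes, then every
`(2k-1)`-fold covering of a point set `S` splits into `k` coverings of `S`. For `S` = all points off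
the curves: every `(2k-1)`-fold covering of the plane splits into `k` coverings of the plane. -/
theorem result (ι : Type) [Finite ι] (A : PHArr ι) (S : Set ℂ) (k : ℕ) (hk : 1 ≤ k)
    (hS : ∀ z ∈ S, Off A z) (hplane : ∀ z, Off A z → 2 * k - 2 ≤ (above A z).ncard)
    (hcov : ∀ z ∈ S, 2 * k - 1 ≤ (above A z).ncard) : Splits A S k := by
  classical
  have := Fintype.ofFinite ι
  by_cases hne : Nonempty ι
  · obtain ⟨Sy, F, l, hT, hC⟩ := A.exists_circ
    obtain ⟨c, hc⟩ := mainW_aux k hk ι Sy F l hC (by
        intro X hX
        rw [hT] at hX
        obtain ⟨z, hz⟩ := hX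
        have hoff : Off A z := by
          intro i hi
          have h1 : z ∈ (A.L i).side true ∪ (A.L i).side false := by
            cases hXi : X i with
            | true => left; have := hz i; rwa [hXi] at this
            | false => right; have := hz i; rwa [hXi] at this
          rw [(A.L i).side_union] at h1
          exact h1 hi
        have hsign : A.sign z = X := by
          funext i
          have hzi := hz i
          cases hXi : X i with
          | true => rw [hXi] at hzi; exact (A.sign_true z i).2 hzi
          | false =>
            rw [hXi] at hzi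
            rw [← Bool.not_eq_true]
            intro h
            exact Set.disjoint_left.1 (A.L i).side_disj ((A.sign_true z i).1 h) hzi
        have h2 := hplane z hoff
        rw [← hsign, A.dep_sign]
        unfold above at h2
        omega) (A.sign '' S) (by
        rintro _ ⟨z, hz, rfl⟩
        rw [hT]; exact A.sign_mem (hS z hz)) (by
        rintro _ ⟨z, hz, rfl⟩
        have := hcov z hz
        rw [A.dep_sign]
        unfold above at this
        omega)
    refine ⟨c, fun z hz j => ?_⟩
    obtain ⟨i, hi, hX⟩ := hc _ ⟨z, hz, rfl⟩ j
    exact ⟨i, hi, (A.sign_true z i).1 hX⟩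
  · rw [not_nonempty_iff] at hne
    refine ⟨fun i => (hne.false i).elim, fun z hz => ?_⟩
    have := hcov z hz
    rw [show above A z = ∅ from Set.eq_empty_of_isEmpty _, Set.ncard_empty] at this
    omega

end Pool.Agent.Results.MP_1180db_co.WholePlane
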